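import Mathlib

set_option autoImplicit false
open Filter

namespace Pool.Agent.Results.MP_73a625_co.Countable

def IsCrossCut {P : Type} [PartialOrder P] (C : Set P) : Prop :=
  IsMaxAntichain (· ≤ ·) C ∧
    ∀ x x' y y' : P, x < x' → x' ∈ C → y' < y → y' ∈ C → x ≤ y → ∃ z ∈ C, x ≤ z ∧ z ≤ y

def IsTrivial {X : Type} (C : Set (Set X)) : Prop :=
  ∃ k : ℕ, C = {A : Set X | A.encard = (k : ℕ∞)} ∨ compl '' C = {A : Set X | A.encard = (k : ℕ∞)}

open Classical in
private noncomputable def cs (A : Set ℕ) (n : ℕ) : Finset ℕ := (Finset.range n).filter (· ∈ A)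

private def G (A : Set ℕ) : Prop := ∀ᶠ n in atTop, n / 2 ≤ (cs A n).card
private def H (A : Set ℕ) : Prop := ∃ᶠ n in atTop, (cs A n).card ≤ n / 2

private theorem mem_cs {A : Set ℕ} {n i : ℕ} : i ∈ cs A n ↔ i < n ∧ i ∈ A := by simp [cs]

private theorem mono {A B : Set ℕ} (h : A ⊆ B) (n : ℕ) : (cs A n).card ≤ (cs B n).card :=
  Finset.card_le_card fun _ hi => mem_cs.2 ⟨(mem_cs.1 hi).1, h (mem_cs.1 hi).2⟩

private theorem smono {A B : Set ℕ} (h : A ⊆ B) {p n : ℕ} (hB : p ∈ B) (hA : p ∉ A) (hn : p < n) :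
    (cs A n).card < (cs B n).card :=
  Finset.card_lt_card ⟨fun _ hi => mem_cs.2 ⟨(mem_cs.1 hi).1, h (mem_cs.1 hi).2⟩,
    fun c => hA (mem_cs.1 (c (mem_cs.2 ⟨hn, hB⟩))).2⟩

private theorem del (A : Set ℕ) (p n : ℕ) : (cs A n).card ≤ (cs (A \ {p}) n).card + 1 := by
  classical
  refine le_trans (Finset.card_le_card fun i hi => ?_) (Finset.card_insert_le p _)
  by_cases h : i = p
  · simp [h]
  · exact Finset.mem_insert_of_mem (mem_cs.2 ⟨(mem_cs.1 hi).1, (mem_cs.1 hi).2, h⟩)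

private theorem del' (A : Set ℕ) {p n : ℕ} (h : n ≤ p) : cs (A \ {p}) n = cs A n := by
  ext i
  simp only [mem_cs, Set.mem_sdiff, Set.mem_singleton_iff]
  exact ⟨fun c => ⟨c.1, c.2.1⟩, fun c => ⟨c.1, c.2, by omega⟩⟩

private theorem fin_case (x : Set ℕ) (hx : H x) (k : ℕ) : ∀ z, x ⊆ z → (z \ x).encard = k → G z →
    ∃ w, (G w ∧ H w) ∧ x ⊆ w ∧ w ⊆ z := by
  induction k with
  | zero =>
    intro z h1 h2 h3
    have : z = x := Set.Subset.antisymm (Set.sdiff_eq_empty.1 (Set.encard_eq_zero.1 h2)) h1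
    exact ⟨z, ⟨h3, this ▸ hx⟩, h1, le_rfl⟩
  | succ k ih =>
    intro z h1 h2 h3
    by_cases h : H z
    · exact ⟨z, ⟨h3, h⟩, h1, le_rfl⟩
    obtain ⟨p, hp⟩ : (z \ x).Nonempty := Set.nonempty_of_encard_ne_zero (by rw [h2]; simp)
    obtain ⟨w, a, b, c⟩ := ih (z \ {p}) (fun i hi => ⟨h1 hi, fun e => hp.2 (e ▸ hi)⟩) (by
      rw [Set.sdiff_sdiff_comm]
      have := Set.encard_sdiff_singleton_add_one hp
      rw [h2] at this
      exact WithTop.add_right_cancel ENat.one_ne_top (this.trans (by push_cast; rfl))) (by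
      unfold H at h
      rw [not_frequently] at h
      exact h.mono fun n hn => by have := del z p n; omega)
    exact ⟨w, a, b, c.trans Set.sdiff_subset⟩

private theorem ivt {x y : Set ℕ} (hx : H x) (hy : G y) (h : x ⊆ y) :
    ∃ w, (G w ∧ H w) ∧ x ⊆ w ∧ w ⊆ y := by
  obtain ⟨N, hN⟩ := eventually_atTop.1 hy
  obtain ⟨z, zy, hz⟩ := zorn_superset_nonempty {z | x ⊆ z ∧ ∀ n ≥ N, n / 2 ≤ (cs z n).card}
    (fun c hc hch hne => by
      refine ⟨⋂₀ c, ⟨Set.subset_sInter fun s hs => (hc hs).1, fun n hn => ?_⟩,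
        fun s hs => Set.sInter_subset_of_mem hs⟩
      obtain ⟨m, hm, hmin⟩ := (InvImage.wf (fun s => (cs s n).card) wellFounded_lt).has_min c hne
      refine ((hc hm).2 n hn).trans (Finset.card_le_card fun i hi => ?_)
      obtain ⟨i1, i2⟩ := mem_cs.1 hi
      refine mem_cs.2 ⟨i1, fun s hs => ?_⟩
      rcases hch.total hm hs with l | l
      · exact l i2
      · by_contra c
        exact hmin s hs (smono l i2 c i1)) y ⟨h, hN⟩
  have gz : G z := eventually_atTop.2 ⟨N, hz.1.2⟩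
  by_cases f : (z \ x).Finite
  · obtain ⟨w, a, b, c⟩ := fin_case x hx _ z hz.1.1 f.cast_ncard_eq.symm gz
    exact ⟨w, a, b, c.trans zy⟩
  refine ⟨z, ⟨gz, frequently_atTop.2 fun a => ?_⟩, hz.1.1, zy⟩
  obtain ⟨p, hp, hap⟩ := Set.Infinite.exists_gt f a
  by_contra c
  push Not at c
  refine (hz.2 (y := z \ {p}) ⟨fun i hi => ⟨hz.1.1 hi, fun e => hp.2 (e ▸ hi)⟩, fun n hn => ?_⟩
    Set.sdiff_subset hp.1).2 rfl
  by_cases l : n ≤ p
  · rw [del' z l]; exact hz.1.2 n hn
  · have := c n (by omega)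
    have := del z p n
    omega

theorem result : ∃ C : Set (Set ℕ), IsCrossCut C ∧ ¬ IsTrivial C ∧
    ∀ A ∈ C, A.Infinite ∧ Aᶜ.Infinite := by
  have h0 : H ∅ := Frequently.of_forall fun n => by simp [cs]
  have h1 : G Set.univ := Eventually.of_forall fun n => by simpa [cs] using Nat.div_le_self n 2
  have inf : ∀ A, G A ∧ H A → A.Infinite ∧ Aᶜ.Infinite := by
    rintro A ⟨g, h⟩
    refine ⟨fun f => ?_, fun f => ?_⟩
    · obtain ⟨n, a, b⟩ := (g.and (eventually_ge_atTop (2 * f.toFinset.card + 2))).exists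
      have : (cs A n).card ≤ f.toFinset.card :=
        Finset.card_le_card fun i hi => f.mem_toFinset.2 (mem_cs.1 hi).2
      omega
    · classical
      obtain ⟨n, a, b⟩ := (h.and_eventually (eventually_ge_atTop (2 * f.toFinset.card + 2))).exists
      have : (Finset.range n).card ≤ (cs A n ∪ f.toFinset).card :=
        Finset.card_le_card fun i hi => by
          by_cases c : i ∈ A
          · exact Finset.mem_union_left _ (mem_cs.2 ⟨Finset.mem_range.1 hi, c⟩)
          · exact Finset.mem_union_right _ (f.mem_toFinset.2 c)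
      have := Finset.card_union_le (cs A n) f.toFinset
      rw [Finset.card_range] at *
      omega
  refine ⟨{A | G A ∧ H A}, ⟨⟨fun A hA B hB ne l => ?_, fun t ht hs => ?_⟩,
    fun x x' y y' l1 c1 l2 c2 l => ?_⟩, ?_, inf⟩
  · obtain ⟨p, pB, pA⟩ := Set.exists_of_ssubset (lt_of_le_of_ne l ne)
    obtain ⟨n, a, b, c⟩ := (hB.2.and_eventually (hA.1.and (eventually_gt_atTop p))).exists
    have := smono l pB pA c
    omega
  · refine Set.Subset.antisymm hs fun A hA => ?_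
    by_cases g : G A
    · obtain ⟨w, a, _, c⟩ := ivt h0 g (Set.empty_subset _)
      rwa [← ht.eq (hs a) hA c]
    · have : H A := (not_eventually.1 g).mono fun n hn => by omega
      obtain ⟨w, a, b, _⟩ := ivt this h1 (Set.subset_univ _)
      rwa [ht.eq hA (hs a) b]
  · exact ivt (c1.2.mono fun n hn => (mono l1.le n).trans hn)
      (c2.1.mono fun n hn => hn.trans (mono l2.le n)) l
  · obtain ⟨w, a, _⟩ := ivt h0 h1 (Set.subset_univ _)
    rintro ⟨k, e | e⟩
    · have : w ∈ {A : Set ℕ | A.encard = (k : ℕ∞)} := e ▸ a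
      exact (inf w a).1 (Set.finite_of_encard_eq_coe this)
    · have : wᶜ ∈ {A : Set ℕ | A.encard = (k : ℕ∞)} := e ▸ Set.mem_image_of_mem _ a
      exact (inf w a).2 (Set.finite_of_encard_eq_coe this)

end Pool.Agent.Results.MP_73a625_co.Countable
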